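import Pool.Agent.W420.NS.Stm

/-! NS-LIFT: flows in the components of a graph. -/

set_option autoImplicit false

namespace Pool.Agent.W683.NS

open Classical in
/-- a unit flow from `p` to `q` -/
def Fl {V : Type} [Fintype V] (C : SimpleGraph V) (p q : V) : Prop :=
  ∃ x : V → V → ZMod 4, (∀ u v, x v u = -x u v) ∧ (∀ u v, ¬ C.Adj u v → x u v = 0) ∧
    ∀ u, ∑ v, x u v = (if u = p then 1 else 0) - (if u = q then 1 else 0)

open Classical in
theorem fl_adj {V : Type} [Fintype V] (C : SimpleGraph V) (p q : V) (h : C.Adj p q) :
    Fl C p q := by
  refine ⟨fun u v => (if u = p ∧ v = q then 1 else 0) - (if u = q ∧ v = p then 1 else 0),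
    ?_, ?_, ?_⟩
  · intro u v
    simp only [and_comm (a := v = p), and_comm (a := v = q)]
    ring
  · intro u v huv
    have h1 : ¬ (u = p ∧ v = q) := by
      rintro ⟨rfl, rfl⟩
      exact huv h
    have h2 : ¬ (u = q ∧ v = p) := by
      rintro ⟨rfl, rfl⟩
      exact huv h.symm
    simp only [if_neg h1, if_neg h2, sub_zero]
  · intro u
    rw [Finset.sum_sub_distrib]
    congr 1
    · by_cases hu : u = p
      · simp [hu]
      · simp [hu]
    · by_cases hu : u = q
      · simp [hu]
      · simp [hu]

theorem fl_add {V : Type} [Fintype V] (C : SimpleGraph V) (p q s : V) (h : Fl C p q)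
    (h' : Fl C q s) : Fl C p s := by
  obtain ⟨x, h1, h2, h3⟩ := h
  obtain ⟨y, k1, k2, k3⟩ := h'
  refine ⟨fun u v => x u v + y u v, ?_, ?_, ?_⟩
  · intro u v
    simp only [h1 u v, k1 u v]
    ring
  · intro u v huv
    simp only [h2 u v huv, k2 u v huv, add_zero]
  · intro u
    rw [Finset.sum_add_distrib, h3, k3]
    ring

theorem fl_refl {V : Type} [Fintype V] (C : SimpleGraph V) (p : V) : Fl C p p := by
  refine ⟨fun _ _ => 0, ?_, ?_, ?_⟩
  · intro u v
    simp
  · intro u v _
    rfl
  · intro u
    simp

theorem fl_walk {V : Type} [Fintype V] (C : SimpleGraph V) (p q : V) (w : C.Walk p q) :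
    Fl C p q := by
  induction w with
  | nil => exact fl_refl C _
  | cons h _ ih => exact fl_add C _ _ _ (fl_adj C _ _ h) ih

open Classical in
theorem lift : Pool.Agent.W420.NS.S_LIFT := by
  intro V _ C b hb
  let r : C.ConnectedComponent → V := fun K => Quot.out K
  have hr : ∀ K : C.ConnectedComponent, C.connectedComponentMk (r K) = K := fun K => Quot.out_eq K
  have hF : ∀ w : V, Fl C w (r (C.connectedComponentMk w)) := by
    intro w
    have h : C.Reachable w (r (C.connectedComponentMk w)) := by
      apply SimpleGraph.ConnectedComponent.exact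
      rw [hr]
    obtain ⟨p⟩ := h
    exact fl_walk C _ _ p
  choose F h1 h2 h3 using hF
  refine ⟨fun u v => ∑ w, b w * F w u v, ?_, ?_, ?_⟩
  · intro u v
    rw [← Finset.sum_neg_distrib]
    refine Finset.sum_congr rfl fun w _ => ?_
    rw [h1 w u v]
    ring
  · intro u v huv
    refine Finset.sum_eq_zero fun w _ => ?_
    rw [h2 w u v huv, mul_zero]
  · intro u
    rw [Finset.sum_comm]
    have e1 : ∀ w, ∑ v, b w * F w u v = (if u = w then b w else 0) -
        (if u = r (C.connectedComponentMk u) then
          (if C.connectedComponentMk w = C.connectedComponentMk u then b w else 0) else 0) := by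
      intro w
      rw [← Finset.mul_sum, h3 w u]
      have e2 : (u = r (C.connectedComponentMk w)) ↔ (u = r (C.connectedComponentMk u) ∧
          C.connectedComponentMk w = C.connectedComponentMk u) := by
        constructor
        · intro h
          have h5 : C.connectedComponentMk u = C.connectedComponentMk w := by
            conv_lhs => rw [h]
            exact hr _
          refine ⟨?_, h5.symm⟩
          rw [h5]
          exact h
        · rintro ⟨h, h'⟩
          rw [h']
          exact h
      by_cases ha : u = w
      · by_cases hc : u = r (C.connectedComponentMk w)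
        · obtain ⟨hd, he⟩ := e2.1 hc
          rw [if_pos ha, if_pos hc, if_pos ha, if_pos hd, if_pos he]
          ring
        · rw [if_pos ha, if_neg hc, if_pos ha]
          by_cases hd : u = r (C.connectedComponentMk u)
          · rw [if_pos hd]
            have he : ¬ C.connectedComponentMk w = C.connectedComponentMk u :=
              fun he => hc (e2.2 ⟨hd, he⟩)
            rw [if_neg he]
            ring
          · rw [if_neg hd]
            ring
      · by_cases hc : u = r (C.connectedComponentMk w)
        · obtain ⟨hd, he⟩ := e2.1 hc
          rw [if_neg ha, if_pos hc, if_neg ha, if_pos hd, if_pos he]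
          ring
        · rw [if_neg ha, if_neg hc, if_neg ha]
          by_cases hd : u = r (C.connectedComponentMk u)
          · rw [if_pos hd]
            have he : ¬ C.connectedComponentMk w = C.connectedComponentMk u :=
              fun he => hc (e2.2 ⟨hd, he⟩)
            rw [if_neg he]
            ring
          · rw [if_neg hd]
            ring
    rw [Finset.sum_congr rfl fun w _ => e1 w, Finset.sum_sub_distrib]
    have e3 : ∑ w, (if u = w then b w else 0) = b u := by
      rw [Finset.sum_ite_eq]
      simp
    rw [e3]
    by_cases hd : u = r (C.connectedComponentMk u)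
    · simp only [if_pos hd]
      rw [hb (C.connectedComponentMk u), sub_zero]
    · simp only [if_neg hd]
      simp

end Pool.Agent.W683.NS
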